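import Pool.Agent.helper68.QZ.Spec
import Pool.Agent.helper57.LD.Z0

/-! # MP_5a4a8e, row AK -/

set_option autoImplicit false

namespace Pool.Agent.QZ

open N1f72dd46 Filter MeasureTheory Complex Metric Pool.Agent.helper6.LD
open scoped ComplexConjugate

theorem AK : AK_stmt := by
  intro k σ t hσ
  have h1 := h57_deriv hσ (k + 1) t
  have h2 := h57_series (M := σ) (k + 1) t
  rw [Nat.add_sub_cancel] at h1 h2
  unfold ak
  rw [h1, h2, norm_div, norm_neg, norm_mul, norm_mul, norm_pow, norm_neg, norm_one, one_pow,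
    one_mul, norm_inv]
  rw [div_eq_inv_mul]

end Pool.Agent.QZ
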