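import Pool.Agent.helper68.QZ.Spec

/-! # MP_5a4a8e, row GA -/

set_option autoImplicit false

namespace Pool.Agent.QZ

open N1f72dd46 Filter MeasureTheory Complex Metric Pool.Agent.helper6.LD
open scoped ComplexConjugate

theorem GA : GA_stmt := by
  intro B N C hB hN hC
  have hK : 0 < C * (4 : ℝ) ^ (B + N) * (6 : ℝ) ^ B := by positivity
  have h1 := (isLittleO_rpow_exp_atTop (2 * B + N)).bound
    (show (0 : ℝ) < 1 / (C * (4 : ℝ) ^ (B + N) * (6 : ℝ) ^ B) by positivity)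
  obtain ⟨y0, hy0⟩ := Filter.eventually_atTop.1 h1
  refine ⟨max 4 (4 * y0), fun T t hT ht => ?_⟩
  have hT4 : 4 ≤ T := (le_max_left _ _).trans hT
  have hTy : 4 * y0 ≤ T := (le_max_right _ _).trans hT
  set y := |t - T| with hy
  have hy1 : 1 ≤ y := by linarith
  have hyy : y0 ≤ y := by linarith
  have hy00 : 0 ≤ y := by linarith
  have h2 := hy0 y hyy
  rw [Real.norm_of_nonneg (Real.rpow_nonneg hy00 _), Real.norm_of_nonneg (Real.exp_pos _).le,
    one_div, inv_mul_eq_div, le_div_iff₀ hK] at h2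
  have h3 : 1 + |t| ≤ 6 * y := by
    have : |t| ≤ |t - T| + |T| := by
      have := abs_add_le (t - T) T
      simpa using this
    rw [abs_of_nonneg (show 0 ≤ T by linarith)] at this
    linarith
  have h4 : T ≤ 4 * y := by linarith
  have hT0 : 0 < T := by linarith
  have h5 : Real.exp y ≤ Real.exp ((t - T) ^ 2) := by
    apply Real.exp_le_exp.2
    rw [← sq_abs, ← hy]
    nlinarith
  rw [Real.rpow_neg hT0.le, inv_mul_eq_div, le_div_iff₀ (Real.rpow_pos_of_pos hT0 _)]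
  have h6 : T ^ B * T ^ N ≤ (4 : ℝ) ^ (B + N) * y ^ (B + N) := by
    rw [← Real.rpow_add hT0, ← Real.mul_rpow (by norm_num) hy00]
    exact Real.rpow_le_rpow hT0.le h4 (by positivity)
  have h7 : (1 + |t|) ^ B ≤ (6 : ℝ) ^ B * y ^ B := by
    rw [← Real.mul_rpow (by norm_num) hy00]
    exact Real.rpow_le_rpow (by positivity) h3 hB.le
  calc C * T ^ B * (1 + |t|) ^ B * T ^ N = C * ((T ^ B * T ^ N) * (1 + |t|) ^ B) := by ring
    _ ≤ C * (((4 : ℝ) ^ (B + N) * y ^ (B + N)) * ((6 : ℝ) ^ B * y ^ B)) := by gcongr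
    _ = (C * (4 : ℝ) ^ (B + N) * (6 : ℝ) ^ B) * (y ^ (B + N) * y ^ B) := by ring
    _ = (C * (4 : ℝ) ^ (B + N) * (6 : ℝ) ^ B) * y ^ (2 * B + N) := by
        rw [← Real.rpow_add (by linarith)]
        ring_nf
    _ ≤ Real.exp y := by rw [mul_comm]; exact h2
    _ ≤ _ := h5

end Pool.Agent.QZ
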