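import Pool.Agent.helper68.QZ.Spec

/-! # MP_5a4a8e, row LD -/

set_option autoImplicit false

namespace Pool.Agent.QZ

open N1f72dd46 Filter MeasureTheory Complex Metric Pool.Agent.helper6.LD
open scoped ComplexConjugate

theorem LD (hLG : LG_stmt) : LD_stmt := by
  intro θ ε hθ hθ1 hZ hε
  obtain ⟨T1, hT1, hb⟩ := hLG θ (ε / 4) hθ hθ1 hZ (by positivity)
  set r := min (ε / 2) ((2 * θ - 1) / 2) with hr
  have hr0 : 0 < r := lt_min (by positivity) (by linarith)
  have hr1 : r ≤ ε / 2 := min_le_left _ _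
  have hr2 : r ≤ (2 * θ - 1) / 2 := min_le_right _ _
  have hr3 : r ≤ 1 / 2 := by linarith
  refine ⟨max (T1 + 2) ((2 ^ (1 + ε) / r) ^ (2 / ε)), le_trans (by linarith) (le_max_left _ _),
    fun σ t hσ ht => ?_⟩
  have ht1 : T1 + 2 ≤ t := (le_max_left _ _).trans ht
  have ht2 : ((2 : ℝ) ^ (1 + ε) / r) ^ (2 / ε) ≤ t := (le_max_right _ _).trans ht
  have ht0 : 0 < t := by linarith
  have hq : (2 : ℝ) ^ (1 + ε) / r ≤ t ^ (ε / 2) := by
    have h0 : 0 ≤ (2 : ℝ) ^ (1 + ε) / r := by positivity
    have h1 := Real.rpow_le_rpow (Real.rpow_nonneg h0 _) ht2 (show 0 ≤ ε / 2 by positivity)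
    rwa [← Real.rpow_mul h0, show 2 / ε * (ε / 2) = 1 by field_simp, Real.rpow_one] at h1
  set c : ℂ := (σ : ℂ) + t * I with hc
  have hcre : c.re = σ := by simp [hc]
  have hcim : c.im = t := by simp [hc]
  have hd : DiffContOnCl ℂ riemannZeta (ball c r) := by
    apply DifferentiableOn.diffContOnCl
    rw [closure_ball _ hr0.ne']
    intro z hz
    apply DifferentiableAt.differentiableWithinAt
    apply differentiableAt_riemannZeta
    intro h1
    rw [h1, mem_closedBall, dist_eq_norm] at hz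
    have h2 := (Complex.abs_im_le_norm (1 - c)).trans hz
    rw [sub_im, hcim, one_im, zero_sub, abs_neg, abs_of_pos ht0] at h2
    linarith
  set m := max (θ - σ) 0 with hm
  have hm0 : 0 ≤ m := le_max_right _ _
  have hm1 : m ≤ 1 / 2 := max_le (by linarith) (by norm_num)
  have hC : ∀ z ∈ sphere c r, ‖riemannZeta z‖ ≤ (2 * t) ^ (m / 2 + ε / 2) := by
    intro z hz
    rw [mem_sphere, dist_eq_norm] at hz
    have h1 : |z.re - σ| ≤ r := by
      have := Complex.abs_re_le_norm (z - c)
      rw [hz, sub_re, hcre] at this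
      exact this
    have h2 : |z.im - t| ≤ r := by
      have := Complex.abs_im_le_norm (z - c)
      rw [hz, sub_im, hcim] at this
      exact this
    rw [abs_le] at h1 h2
    have h3 := hb z.re z.im (by linarith) (by linarith)
    rw [Complex.re_add_im] at h3
    refine h3.trans ?_
    have h4 : max (θ - z.re) 0 ≤ m + r := by
      apply max_le
      · have := le_max_left (θ - σ) 0
        linarith
      · linarith
    calc z.im ^ (max (θ - z.re) 0 / 2 + ε / 4) ≤ (2 * t) ^ (max (θ - z.re) 0 / 2 + ε / 4) := by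
          apply Real.rpow_le_rpow (by linarith) (by linarith)
          have := le_max_right (θ - z.re) 0
          positivity
      _ ≤ (2 * t) ^ (m / 2 + ε / 2) := by
          apply Real.rpow_le_rpow_of_exponent_le (by linarith)
          linarith
  have h5 := Complex.norm_deriv_le_of_forall_mem_sphere_norm_le hr0 hd hC
  refine h5.trans ?_
  rw [Real.mul_rpow (by norm_num) ht0.le]
  calc (2 : ℝ) ^ (m / 2 + ε / 2) * t ^ (m / 2 + ε / 2) / r
      ≤ (2 : ℝ) ^ (1 + ε) * t ^ (m / 2 + ε / 2) / r := by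
        gcongr
        · norm_num
        · linarith
        · linarith
    _ = ((2 : ℝ) ^ (1 + ε) / r) * t ^ (m / 2 + ε / 2) := by ring
    _ ≤ t ^ (ε / 2) * t ^ (m / 2 + ε / 2) := by gcongr
    _ = t ^ (m / 2 + ε) := by
        rw [← Real.rpow_add ht0]
        ring_nf

end Pool.Agent.QZ
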