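import Pool.Agent.helper68.QZ.Spec

/-! # MP_5a4a8e, row PC -/

set_option autoImplicit false

namespace Pool.Agent.QZ

open N1f72dd46 Filter MeasureTheory Complex Metric Pool.Agent.helper6.LD
open scoped ComplexConjugate

lemma PC_an (k : ℕ) (z : ℂ) (hz : 1 < z.re) : DifferentiableAt ℂ (ak k) z := by
  have h1 : AnalyticAt ℂ riemannZeta z := by
    apply DifferentiableOn.analyticAt (s := {1}ᶜ)
    · intro w hw
      exact (differentiableAt_riemannZeta hw).differentiableWithinAt
    · apply isOpen_compl_singleton.mem_nhds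
      intro h
      rw [h] at hz
      simp at hz
  have h2 : AnalyticAt ℂ (logDeriv riemannZeta) z := by
    unfold logDeriv
    exact h1.deriv.div h1 (riemannZeta_ne_zero_of_one_le_re hz.le)
  have h3 : AnalyticAt ℂ (iteratedDeriv k (logDeriv riemannZeta)) z := by
    rw [iteratedDeriv_eq_iterate]
    exact h2.iterated_deriv k
  exact h3.differentiableAt.div_const _

theorem PC (hTB : TB_stmt) : PC_stmt := by
  intro α lam hα hlam
  obtain ⟨C, hC, hb⟩ := hTB (1 / 4) (by norm_num)
  have hlog : 1 / 2 < Real.log 2 := by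
    have := Real.log_two_gt_d9
    linarith
  refine ⟨lam * α + 4 * (2 * C), by positivity, fun T s hT hs => ⟨?_, ?_⟩⟩
  · unfold Pt
    apply DifferentiableAt.fun_sum
    intro k _
    apply DifferentiableAt.mul_const
    have h1 : DifferentiableAt ℂ (ak k) (s + lam) := PC_an k _ (by simp; linarith)
    exact h1.comp s (differentiableAt_id.add_const _)
  · have hK : (⌊lam * α * Real.log T⌋₊ : ℝ) ≤ lam * α * Real.log T := by
      apply Nat.floor_le
      have := Real.log_nonneg (show (1 : ℝ) ≤ T by linarith)
      positivity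
    set K := ⌊lam * α * Real.log T⌋₊ with hKd
    have hterm : ∀ k : ℕ, ‖ak k (s + lam) * (-(lam : ℂ)) ^ k‖ ≤ C * 2 ^ k := by
      intro k
      have h1 := hb k (s + lam) (by simp; linarith)
      have h2 : (s + (lam : ℂ)).re = s.re + lam := by simp
      rw [h2] at h1
      rw [norm_mul, norm_pow, norm_neg, Complex.norm_real, Real.norm_of_nonneg (by linarith)]
      have h3 : 0 < s.re + lam - 1 - 1 / 4 := by linarith
      calc ‖ak k (s + lam)‖ * lam ^ k ≤ (C * ((s.re + lam - 1 - 1 / 4) ^ k)⁻¹) * lam ^ k := by
            gcongr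
        _ = C * (lam / (s.re + lam - 1 - 1 / 4)) ^ k := by
            rw [div_pow]
            ring
        _ ≤ C * 2 ^ k := by
            gcongr
            rw [div_le_iff₀ h3]
            linarith
    have hT0 : 0 < T := by linarith
    have hsum : ‖Pt lam α T s‖ ≤ C * 2 ^ (K + 1) := by
      unfold Pt
      calc ‖∑ k ∈ Finset.range (K + 1), ak k (s + lam) * (-(lam : ℂ)) ^ k‖
          ≤ ∑ k ∈ Finset.range (K + 1), C * 2 ^ k := norm_sum_le_of_le _ fun k _ => hterm k
        _ = C * ∑ k ∈ Finset.range (K + 1), (2 : ℝ) ^ k := by rw [Finset.mul_sum]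
        _ ≤ C * 2 ^ (K + 1) := by
            gcongr
            rw [geom_sum_eq (by norm_num)]
            norm_num
    refine hsum.trans ?_
    have h5 : (2 : ℝ) ^ K ≤ T ^ (lam * α) := by
      calc (2 : ℝ) ^ K = Real.exp (K * Real.log 2) := by
            rw [← Real.rpow_natCast, Real.rpow_def_of_pos (by norm_num), mul_comm]
        _ ≤ Real.exp (lam * α * Real.log T) := by
            apply Real.exp_le_exp.2
            have h6 : Real.log 2 ≤ 1 := by
              have := Real.log_two_lt_d9
              linarith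
            calc (K : ℝ) * Real.log 2 ≤ K * 1 := by gcongr
              _ ≤ _ := by linarith
        _ = T ^ (lam * α) := by
            rw [Real.rpow_def_of_pos hT0, mul_comm]
    have h6 : 2 * C ≤ T ^ (4 * (2 * C)) := by
      have h7 : 1 / 2 < Real.log T := lt_of_lt_of_le hlog (Real.log_le_log (by norm_num) hT)
      rw [Real.rpow_def_of_pos hT0]
      have h8 := Real.add_one_le_exp (Real.log T * (4 * (2 * C)))
      nlinarith
    calc C * 2 ^ (K + 1) = 2 ^ K * (2 * C) := by ring
      _ ≤ T ^ (lam * α) * T ^ (4 * (2 * C)) := by gcongr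
      _ = T ^ (lam * α + 4 * (2 * C)) := by rw [← Real.rpow_add hT0]

end Pool.Agent.QZ
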