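import Pool.Agent.helper68.QZ.Spec

/-! # MP_5a4a8e, row PL -/

set_option autoImplicit false

namespace Pool.Agent.QZ

open N1f72dd46 Filter MeasureTheory Complex Metric Pool.Agent.helper6.LD
open scoped ComplexConjugate

/-- `(1 - x)⁻¹ ≤ exp (x + x²)` for `0 ≤ x ≤ 1/2` -/
lemma PL_inv (x : ℝ) (h0 : 0 ≤ x) (h1 : x ≤ 1 / 2) : (1 - x)⁻¹ ≤ Real.exp (x + x ^ 2) := by
  have h2 : 0 < 1 - x := by linarith
  have h3 := Real.quadratic_le_exp_of_nonneg (x := x + x ^ 2) (by positivity)
  rw [inv_eq_one_div, div_le_iff₀ h2]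
  refine le_trans ?_ (mul_le_mul_of_nonneg_right h3 h2.le)
  have h4 : 0 ≤ x ^ 2 * (1 - x - x ^ 2 - x ^ 3) := by
    apply mul_nonneg (sq_nonneg _)
    have h5 : x ^ 2 ≤ 1 / 4 := by nlinarith
    have h6 : x ^ 3 ≤ 1 / 8 := by
      have : x ^ 3 = x * x ^ 2 := by ring
      rw [this]
      nlinarith [sq_nonneg x]
    linarith
  nlinarith [h4]

theorem PL (hAC : AC_stmt) : PL_stmt := by
  intro θ α v ε hθ hθ1 hZ hα hv hv1 hε
  set e1 := min (1 / 4) (ε / (4 * α)) with he1
  have he0 : 0 < e1 := lt_min (by norm_num) (by positivity)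
  have he4 : e1 ≤ 1 / 4 := min_le_left _ _
  have hae : α * e1 ≤ ε / 4 := by
    have : e1 ≤ ε / (4 * α) := min_le_right _ _
    calc α * e1 ≤ α * (ε / (4 * α)) := by gcongr
      _ = ε / 4 := by field_simp
  refine ⟨max 2 (4 * α / ε), fun lam hlam => ?_⟩
  have hlam2 : 2 ≤ lam := (le_max_left _ _).trans hlam
  have hal : α / lam ≤ ε / 4 := by
    have h1 : 4 * α / ε ≤ lam := (le_max_right _ _).trans hlam
    rw [div_le_iff₀ hε] at h1
    rw [div_le_iff₀ (by linarith)]
    linarith
  obtain ⟨C, T0, hC, hb⟩ := hAC θ e1 (lam + 1) hθ hθ1 hZ he0 he4 (by linarith)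
  have hA : 0 < C * 2 * (lam * α + 2) ^ 3 := by positivity
  have h1 := (isLittleO_log_rpow_rpow_atTop (4 : ℝ) (show 0 < ε / 2 by positivity)).bound
    (show (0 : ℝ) < 1 / (C * 2 * (lam * α + 2) ^ 3) by positivity)
  obtain ⟨T1, hT1⟩ := Filter.eventually_atTop.1 h1
  refine ⟨max (max 2 T1) (2 * T0), fun T t hT ht1 ht2 => ?_⟩
  have hT2 : 2 ≤ T := (le_max_left _ _).trans ((le_max_left _ _).trans hT)
  have hTT1 : T1 ≤ T := (le_max_right _ _).trans ((le_max_left _ _).trans hT)
  have hTT0 : 2 * T0 ≤ T := (le_max_right _ _).trans hT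
  have hT0 : 0 < T := by linarith
  have hlog : 1 / 2 < Real.log T := by
    have h3 := Real.log_two_gt_d9
    have h4 := Real.log_le_log (by norm_num) hT2
    linarith
  set L := Real.log T with hL
  have hL0 : 0 < L := by linarith
  have hfin : C * 2 * (lam * α + 2) ^ 3 * L ^ 4 ≤ T ^ (ε / 2) := by
    have h2 := hT1 T hTT1
    rw [Real.norm_of_nonneg (Real.rpow_nonneg hL0.le _),
      Real.norm_of_nonneg (Real.rpow_nonneg hT0.le _), one_div, inv_mul_eq_div,
      le_div_iff₀ hA] at h2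
    rw [show (4 : ℝ) = ((4 : ℕ) : ℝ) by norm_num, Real.rpow_natCast] at h2
    linarith
  have hlt : Real.log t ≤ 2 * L := by
    have h3 : Real.log t ≤ Real.log (T ^ 2) := by
      apply Real.log_le_log (by linarith)
      nlinarith
    rw [Real.log_pow] at h3
    exact_mod_cast h3
  have hlt0 : 0 ≤ Real.log t := Real.log_nonneg (by linarith)
  set z := v + e1 with hz
  have hz0 : 0 < z := by positivity
  have hz1 : z ≤ 1 / 2 := by linarith
  have hzl : z / lam ≤ 1 / 2 := by
    rw [div_le_iff₀ (by linarith)]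
    linarith
  have hzl0 : 0 ≤ z / lam := by positivity
  have hK : (⌊lam * α * L⌋₊ : ℝ) ≤ lam * α * L := Nat.floor_le (by positivity)
  have hE : ∀ k : ℕ, (k : ℝ) ≤ lam * α * L → (lam / (lam - z)) ^ k ≤ T ^ (α * v + ε / 2) := by
    intro k hk
    have h3 : lam / (lam - z) = (1 - z / lam)⁻¹ := by
      have h5 : lam - z ≠ 0 := by
        have : 0 < lam - z := by linarith
        exact this.ne'
      have h6 : lam ≠ 0 := by
        have : 0 < lam := by linarith
        exact this.ne'
      have h7 : 1 - z / lam = (lam - z) / lam := by field_simp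
      rw [h7, inv_div]
    have h8 : 0 < 1 - z / lam := by linarith
    calc (lam / (lam - z)) ^ k ≤ (Real.exp (z / lam + (z / lam) ^ 2)) ^ k := by
          rw [h3]
          exact pow_le_pow_left₀ (inv_nonneg.2 h8.le) (PL_inv _ hzl0 hzl) k
      _ = Real.exp (k * (z / lam + (z / lam) ^ 2)) := by rw [← Real.exp_nat_mul]
      _ ≤ Real.exp (L * (α * v + ε / 2)) := by
          apply Real.exp_le_exp.2
          have h9 : (k : ℝ) * (z / lam + (z / lam) ^ 2) ≤
              lam * α * L * (z / lam + (z / lam) ^ 2) := by gcongr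
          have h10 : lam * α * L * (z / lam + (z / lam) ^ 2) = L * (α * z + α / lam * z ^ 2) := by
            have h6 : lam ≠ 0 := by
              have : 0 < lam := by linarith
              exact this.ne'
            field_simp
          rw [h10] at h9
          refine h9.trans ?_
          apply mul_le_mul_of_nonneg_left _ hL0.le
          have h11 : α / lam * z ^ 2 ≤ α / lam * 1 := by
            gcongr
            nlinarith
          rw [hz, mul_add]
          linarith
      _ = T ^ (α * v + ε / 2) := by rw [Real.rpow_def_of_pos hT0]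
  set K := ⌊lam * α * L⌋₊ with hKd
  have hcomp : (((θ - v : ℝ) : ℂ) + t * I) + lam = (((θ - v + lam : ℝ)) : ℂ) + t * I := by
    push_cast
    ring
  have hterm : ∀ k ∈ Finset.range (K + 1),
      ‖ak k ((((θ - v : ℝ) : ℂ) + t * I) + lam) * (-(lam : ℂ)) ^ k‖ ≤
        C * (2 * L) * ((lam * α + 2) * L) ^ 2 * T ^ (α * v + ε / 2) := by
    intro k hk
    have hk1 : (k : ℝ) ≤ lam * α * L := by
      refine le_trans ?_ hK
      exact_mod_cast Nat.le_of_lt_succ (Finset.mem_range.1 hk)
    rw [hcomp, norm_mul, norm_pow, norm_neg, Complex.norm_real, Real.norm_of_nonneg (by linarith)]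
    have h3 := hb k (θ - v + lam) t (by linarith) (by linarith) (by linarith)
    rw [show θ - v + lam - θ - e1 = lam - z by rw [hz]; ring] at h3
    have h4 : 0 < lam - z := by linarith
    have h5 : (k : ℝ) + 1 ≤ (lam * α + 2) * L := by linarith
    calc ‖ak k (((θ - v + lam : ℝ) : ℂ) + t * I)‖ * lam ^ k
        ≤ (C * Real.log t * (k + 1) ^ 2 * ((lam - z) ^ k)⁻¹) * lam ^ k := by gcongr
      _ = C * Real.log t * (k + 1) ^ 2 * (lam / (lam - z)) ^ k := by
          rw [div_pow]
          ring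
      _ ≤ C * (2 * L) * ((lam * α + 2) * L) ^ 2 * T ^ (α * v + ε / 2) := by
          have h6 := hE k hk1
          gcongr
  have hK1 : ((K + 1 : ℕ) : ℝ) ≤ (lam * α + 2) * L := by
    push_cast
    linarith
  calc ‖Pt lam α T (((θ - v : ℝ) : ℂ) + t * I)‖
      ≤ ∑ k ∈ Finset.range (K + 1), C * (2 * L) * ((lam * α + 2) * L) ^ 2 * T ^ (α * v + ε / 2) := by
        unfold Pt
        exact norm_sum_le_of_le _ hterm
    _ = ((K + 1 : ℕ) : ℝ) * (C * (2 * L) * ((lam * α + 2) * L) ^ 2 * T ^ (α * v + ε / 2)) := by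
        rw [Finset.sum_const, Finset.card_range, nsmul_eq_mul]
    _ ≤ ((lam * α + 2) * L) * (C * (2 * L) * ((lam * α + 2) * L) ^ 2 * T ^ (α * v + ε / 2)) := by
        gcongr
    _ = (C * 2 * (lam * α + 2) ^ 3 * L ^ 4) * T ^ (α * v + ε / 2) := by ring
    _ ≤ T ^ (ε / 2) * T ^ (α * v + ε / 2) := by gcongr
    _ = T ^ (α * v + ε) := by
        rw [← Real.rpow_add hT0]
        ring_nf

end Pool.Agent.QZ
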