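import Pool.Agent.helper68.QZ.Spec
import Pool.Agent.helper30.LD.J0

/-! # MP_5a4a8e, row SI -/

set_option autoImplicit false

namespace Pool.Agent.QZ

open N1f72dd46 Filter MeasureTheory Complex Metric Pool.Agent.helper6.LD
open scoped ComplexConjugate

lemma SI_mono {θ θ' : ℝ} (h : θ ≤ θ') (hZ : ZF θ) : ZF θ' := by
  intro ε hε
  obtain ⟨T0, hT⟩ := hZ ε hε
  exact ⟨T0, fun ρ h1 h2 => (hT ρ h1 h2).trans (by linarith)⟩

theorem SI : SI_stmt := by
  intro b hb hex hstep σ hσ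
  obtain ⟨θ1, hθ1, hz⟩ := hex
  set A : Set ℝ := {θ | 1 / 2 ≤ θ ∧ ZF θ} with hA
  have hmem : max (1 / 2) θ1 ∈ A := by
    refine ⟨le_max_left _ _, ?_⟩
    intro ε hε
    refine ⟨0, fun ρ h1 _ => ?_⟩
    by_contra h2
    push Not at h2
    have h3 : θ1 < ρ.re := lt_of_le_of_lt (le_max_right (1 / 2) θ1) (by linarith)
    exact hz ρ h3 h1
  have hbdd : BddBelow A := ⟨1 / 2, fun θ h => h.1⟩
  have h0 : 1 / 2 ≤ sInf A := le_csInf ⟨_, hmem⟩ fun θ h => h.1
  have h1 : sInf A < 1 := lt_of_le_of_lt (csInf_le hbdd hmem) (max_lt (by norm_num) hθ1)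
  have hZ0 : ZF (sInf A) := by
    intro ε hε
    obtain ⟨θ', hθ', hlt⟩ := exists_lt_of_csInf_lt ⟨_, hmem⟩ (show sInf A < sInf A + ε / 2 by linarith)
    obtain ⟨T0, hT⟩ := hθ'.2 (ε / 2) (by linarith)
    exact ⟨T0, fun ρ h1 h2 => (hT ρ h1 h2).trans (by linarith)⟩
  have hle : sInf A ≤ b := by
    by_contra hlt
    push Not at hlt
    obtain ⟨ε, hε, hZ⟩ := hstep (sInf A) hlt h1 hZ0
    have h2 : max (sInf A - ε) (1 / 2) ∈ A :=
      ⟨le_max_right _ _, SI_mono (le_max_left _ _) hZ⟩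
    have h3 := csInf_le hbdd h2
    rcases le_max_iff.1 h3 with h4 | h4
    · linarith
    · linarith
  obtain ⟨T0, hT⟩ := hZ0 ((σ - b) / 2) (by linarith)
  have hbound : ∀ ρ : ℂ, riemannZeta ρ = 0 → σ ≤ ρ.re → |ρ.im| ≤ |T0| := by
    intro ρ hρ hre
    have h2 : ρ.im < T0 := by
      by_contra h3
      push Not at h3
      have := hT ρ hρ h3
      linarith
    have h4 : -ρ.im < T0 := by
      by_contra h3
      push Not at h3
      have h5 : riemannZeta (conj ρ) = 0 := by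
        rw [riemannZeta_conj, hρ, map_zero]
      have := hT (conj ρ) h5 (by rw [Complex.conj_im]; exact h3)
      rw [Complex.conj_re] at this
      linarith
    rw [abs_le]
    have h5 := le_abs_self T0
    constructor <;> linarith
  have hfin := zeros_finite (S := Metric.closedBall (0 : ℂ) (1 + |T0|)) Metric.isBounded_closedBall
  refine hfin.subset ?_
  rintro ρ ⟨h2, h3⟩
  refine ⟨?_, h2⟩
  rw [Metric.mem_closedBall, dist_zero_right]
  have h4 : ρ.re ≤ 1 := by
    by_contra h5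
    push Not at h5
    exact riemannZeta_ne_zero_of_one_le_re h5.le h2
  have h5 : |ρ.re| ≤ 1 := by
    rw [abs_le]
    constructor <;> linarith
  have h6 := hbound ρ h2 h3
  have h7 := Complex.norm_le_abs_re_add_abs_im ρ
  linarith

end Pool.Agent.QZ
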