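import Pool.Agent.helper68.QZ.Spec
import Pool.Agent.helper57.LD.Z0
import Pool.Agent.helper98.EV.PW

/-! # MP_5a4a8e, row TB -/

set_option autoImplicit false

namespace Pool.Agent.QZ

open N1f72dd46 Filter MeasureTheory Complex Metric Pool.Agent.helper6.LD
open scoped ComplexConjugate

lemma TB_le (δ σ : ℝ) (hσ : 1 + δ < σ) (k n : ℕ) :
    wt σ (k + 1) n ≤ ((σ - 1 - δ) ^ k)⁻¹ * wt (1 + δ) 1 n := by
  rcases Nat.eq_zero_or_pos n with hn | hn
  · subst hn
    simp [wt]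
  · have hr : 0 < σ - 1 - δ := by linarith
    have hnp : (0 : ℝ) < n := by exact_mod_cast hn
    have h1 := Pool.Agent.EV.PW_le k n (σ - 1 - δ) hr hn
    have h2 : (n : ℝ) ^ (σ - 1 - δ) * (n : ℝ) ^ (-σ) = (n : ℝ) ^ (-(1 + δ)) := by
      rw [← Real.rpow_add hnp]
      ring_nf
    have h3 : 0 ≤ ArithmeticFunction.vonMangoldt n := ArithmeticFunction.vonMangoldt_nonneg
    have h4 : 0 ≤ (n : ℝ) ^ (-σ) := (Real.rpow_pos_of_pos hnp _).le
    unfold wt
    rw [Nat.add_sub_cancel, Nat.sub_self, pow_zero, Nat.factorial_zero, Nat.cast_one]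
    calc ArithmeticFunction.vonMangoldt n * Real.log n ^ k / k.factorial * (n : ℝ) ^ (-σ)
        = ArithmeticFunction.vonMangoldt n * (Real.log n ^ k / k.factorial) * (n : ℝ) ^ (-σ) := by
          ring
      _ ≤ ArithmeticFunction.vonMangoldt n * ((n : ℝ) ^ (σ - 1 - δ) / (σ - 1 - δ) ^ k) *
          (n : ℝ) ^ (-σ) := by gcongr
      _ = ((σ - 1 - δ) ^ k)⁻¹ * (ArithmeticFunction.vonMangoldt n * 1 / 1 *
          ((n : ℝ) ^ (σ - 1 - δ) * (n : ℝ) ^ (-σ))) := by ring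
      _ = _ := by rw [h2]

lemma TB_wt_nonneg (σ : ℝ) (k n : ℕ) : 0 ≤ wt σ (k + 1) n := by
  unfold wt
  have h3 : 0 ≤ ArithmeticFunction.vonMangoldt n := ArithmeticFunction.vonMangoldt_nonneg
  have h4 : 0 ≤ Real.log n := Real.log_natCast_nonneg n
  positivity

theorem TB (hAK : AK_stmt) : TB_stmt := by
  intro δ hδ
  have hs : Summable (wt (1 + δ) 1) := wt_summable (by linarith) 1
  have h0 : 0 ≤ ∑' n, wt (1 + δ) 1 n := tsum_nonneg fun n => TB_wt_nonneg (1 + δ) 0 n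
  refine ⟨∑' n, wt (1 + δ) 1 n + 1, by linarith, ?_⟩
  intro k s hs1
  have e : s = ((s.re : ℝ) : ℂ) + (s.im : ℝ) * I := (Complex.re_add_im s).symm
  have hr : 0 < s.re - 1 - δ := by linarith
  have hrk : 0 < ((s.re - 1 - δ) ^ k)⁻¹ := by positivity
  have h1 := hAK k s.re s.im (by linarith)
  rw [← e] at h1
  rw [h1]
  have h2 : HasSum (fun n => ((s.re - 1 - δ) ^ k)⁻¹ * wt (1 + δ) 1 n)
      (((s.re - 1 - δ) ^ k)⁻¹ * ∑' n, wt (1 + δ) 1 n) := hs.hasSum.mul_left _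
  have h3 := tsum_of_norm_bounded (f := fun n : ℕ => (wt s.re (k + 1) n : ℂ) *
    (n : ℂ) ^ (-(s.im * I))) h2 (by
      intro n
      have h4 : ‖(wt s.re (k + 1) n : ℂ) * (n : ℂ) ^ (-(s.im * I))‖ ≤ wt s.re (k + 1) n := by
        rcases Nat.eq_zero_or_pos n with hn | hn
        · subst hn
          simp [wt]
        · rw [norm_mul, Complex.norm_natCast_cpow_of_pos hn, Complex.norm_real, Real.norm_eq_abs,
            abs_of_nonneg (TB_wt_nonneg _ _ _)]
          simp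
      exact h4.trans (TB_le δ s.re hs1 k n))
  refine h3.trans ?_
  nlinarith

end Pool.Agent.QZ
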