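import Pool.Agent.helper68.QZ.Spec

/-! # MP_5a4a8e, row TH -/

set_option autoImplicit false

namespace Pool.Agent.QZ

open N1f72dd46 Filter MeasureTheory Complex Metric Pool.Agent.helper6.LD
open scoped ComplexConjugate

theorem TH : TH_stmt := by
  intro ω θ h0 h1 hTh hθ
  have hpos : 0 ≤ 33 + 2 * ω + ω ^ 2 := by positivity
  have hsq : Real.sqrt (33 + 2 * ω + ω ^ 2) ^ 2 = 33 + 2 * ω + ω ^ 2 := Real.sq_sqrt hpos
  have hs0 : 0 ≤ Real.sqrt (33 + 2 * ω + ω ^ 2) := Real.sqrt_nonneg _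
  have hs1 : 5 + ω ≤ Real.sqrt (33 + 2 * ω + ω ^ 2) := by
    apply Real.le_sqrt_of_sq_le
    nlinarith
  unfold Th at hTh
  have hθ1 : Real.sqrt (33 + 2 * ω + ω ^ 2) < 4 * θ + 3 - ω := by linarith
  have hθ2 : (1 + ω) / 2 < θ := by linarith
  have hq : 0 < 2 * θ ^ 2 + (3 - ω) * θ - 3 - ω := by nlinarith
  refine ⟨by linarith, ?_⟩
  have ha : 0 < 1 - θ := by linarith
  have hb : 0 < 2 * θ - 1 - ω := by linarith
  have hd : 0 < 1 / (1 - θ) - 1 / (2 * θ - 1 - ω) - 1 / 2 := by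
    have gen : ∀ a b : ℝ, 0 < a → 0 < b → 0 < 2 * b - 2 * a - a * b →
        0 < 1 / a - 1 / b - 1 / 2 := by
      intro a b ha hb h
      have e : 1 / a - 1 / b - 1 / 2 = (2 * b - 2 * a - a * b) / (2 * (a * b)) := by
        field_simp
      rw [e]
      positivity
    apply gen _ _ ha hb
    nlinarith
  set d := 1 / (1 - θ) - 1 / (2 * θ - 1 - ω) - 1 / 2 with hdd
  refine ⟨1 / (2 * θ - 1 - ω) + d / 3, 1 / (1 - θ) - d / 3, by positivity, by linarith, ?_, ?_⟩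
  · rw [add_mul, one_div, inv_mul_cancel₀ hb.ne']
    have : 0 < d / 3 * (2 * θ - 1 - ω) := by positivity
    linarith
  · rw [sub_mul, one_div, inv_mul_cancel₀ ha.ne']
    have : 0 < d / 3 * (1 - θ) := by positivity
    linarith

end Pool.Agent.QZ
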